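import Pool.Agent.K1H77.PA.Stm

set_option autoImplicit false

/-!
# Powers of a subfield under Frobenius: tools for the unit equation in characteristic `p`
-/

namespace Pool.Agent.K1H33.PA

open Pool.Agent.K1H77.PA

variable {L : Type} [Field L]

/-- the field of the `p ^ k`-th powers of the elements of `K` -/
def Fk (p : ℕ) [Fact p.Prime] [CharP L p] (K : Subfield L) (k : ℕ) : Subfield L :=
  K.map (iterateFrobenius L p k)

lemma mem_Fk {p : ℕ} [Fact p.Prime] [CharP L p] {K : Subfield L} {k : ℕ} {x : L} :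
    x ∈ Fk p K k ↔ ∃ y ∈ K, y ^ p ^ k = x := by
  unfold Fk
  rw [Subfield.mem_map]
  rfl

lemma Fk_anti {p : ℕ} [Fact p.Prime] [CharP L p] {K : Subfield L} {k l : ℕ} (h : k ≤ l) :
    Fk p K l ≤ Fk p K k := by
  intro x hx
  rw [mem_Fk] at hx ⊢
  obtain ⟨y, hy, rfl⟩ := hx
  refine ⟨y ^ p ^ (l - k), pow_mem hy _, ?_⟩
  rw [← pow_mul, ← pow_add, Nat.sub_add_cancel h]

lemma Fk_le {p : ℕ} [Fact p.Prime] [CharP L p] {K : Subfield L} {k : ℕ} : Fk p K k ≤ K := by
  intro x hx
  rw [mem_Fk] at hx
  obtain ⟨y, hy, rfl⟩ := hx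
  exact pow_mem hy _

/-- independence with coefficients in a subfield -/
def Ind {ι : Type} (F : Subfield L) (s : Finset ι) (v : ι → L) : Prop :=
  ∀ e : ι → L, (∀ i ∈ s, e i ∈ F) → ∑ i ∈ s, e i * v i = 0 → ∀ i ∈ s, e i = 0

lemma Ind_mono {ι : Type} {F F' : Subfield L} (h : F ≤ F') {s : Finset ι} {v : ι → L}
    (H : Ind F' s v) : Ind F s v := fun e he => H e (fun i hi => h (he i hi))

/-- families which are dependent over all members of a decreasing sequence of subfields are
dependent over the intersection -/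
lemma dep_inf {ι : Type} [DecidableEq ι] (F : ℕ → Subfield L) (hF : ∀ k l, k ≤ l → F l ≤ F k)
    (v : ι → L) (s : Finset ι) (H : ∀ k, ¬ Ind (F k) s v) :
    ∃ e : ι → L, (∀ i ∈ s, ∀ k, e i ∈ F k) ∧ ∑ i ∈ s, e i * v i = 0 ∧ ∃ i ∈ s, e i ≠ 0 := by
  induction s using Finset.induction_on with
  | empty =>
    exfalso
    apply H 0
    intro e _ _ i hi
    simp at hi
  | insert a s ha ih =>
    by_cases h1 : ∀ k, ¬ Ind (F k) s v
    · obtain ⟨e, he1, he2, i, hi, hei⟩ := ih h1
      have key : ∀ i ∈ s, Function.update e a 0 i = e i := by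
        intro i hi
        rw [Function.update_of_ne]
        rintro rfl
        exact ha hi
      refine ⟨Function.update e a 0, ?_, ?_, i, Finset.mem_insert_of_mem hi, ?_⟩
      · intro i hi k
        rcases Finset.mem_insert.1 hi with rfl | hi
        · rw [Function.update_self]
          exact zero_mem _
        · rw [key i hi]
          exact he1 i hi k
      · rw [Finset.sum_insert ha, Function.update_self, zero_mul, zero_add,
          Finset.sum_congr rfl (fun i hi => by rw [key i hi])]
        exact he2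
      · rw [key i hi]
        exact hei
    · push Not at h1
      obtain ⟨k1, hk1⟩ := h1
      -- normalised relations
      have h2 : ∀ k, k1 ≤ k → ∃ e : ι → L, (∀ i ∈ insert a s, e i ∈ F k) ∧ e a = 1 ∧
          ∑ i ∈ insert a s, e i * v i = 0 := by
        intro k hk
        have h3 := H k
        unfold Ind at h3
        push Not at h3
        obtain ⟨e, he1, he2, i, hi, hei⟩ := h3
        have hea : e a ≠ 0 := by
          intro h0
          rw [Finset.sum_insert ha, h0, zero_mul, zero_add] at he2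
          have h4 := hk1 e (fun i hi => hF _ _ hk (he1 i (Finset.mem_insert_of_mem hi))) he2
          rcases Finset.mem_insert.1 hi with rfl | hi
          · exact hei h0
          · exact hei (h4 i hi)
        refine ⟨fun i => (e a)⁻¹ * e i, ?_, inv_mul_cancel₀ hea, ?_⟩
        · intro i hi
          exact mul_mem (inv_mem (he1 a (Finset.mem_insert_self _ _))) (he1 i hi)
        · have : ∀ i, (e a)⁻¹ * e i * v i = (e a)⁻¹ * (e i * v i) := fun i => mul_assoc _ _ _
          simp only [this]
          rw [← Finset.mul_sum, he2, mul_zero]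
      obtain ⟨e, he1, he2, he3⟩ := h2 k1 le_rfl
      refine ⟨e, ?_, he3, a, Finset.mem_insert_self _ _, by rw [he2]; exact one_ne_zero⟩
      have h5 : ∀ k, k1 ≤ k → ∀ i ∈ insert a s, e i ∈ F k := by
        intro k hk i hi
        obtain ⟨e', he1', he2', he3'⟩ := h2 k hk
        have h6 : ∀ i ∈ s, e i - e' i = 0 := by
          apply hk1 (fun i => e i - e' i)
          · intro i hi
            exact sub_mem (he1 i (Finset.mem_insert_of_mem hi))
              (hF _ _ hk (he1' i (Finset.mem_insert_of_mem hi)))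
          · rw [Finset.sum_insert ha, he2] at he3
            rw [Finset.sum_insert ha, he2'] at he3'
            simp only [sub_mul, Finset.sum_sub_distrib]
            linear_combination he3 - he3'
        rcases Finset.mem_insert.1 hi with rfl | hi'
        · rw [he2]
          exact one_mem _
        · rw [sub_eq_zero.1 (h6 i hi')]
          exact he1' i hi
      intro i hi k
      rcases le_total k1 k with hk | hk
      · exact h5 k hk i hi
      · exact hF _ _ hk (he1 i hi)

/-- the quotient of a finitely generated commutative group by the `q`-th powers is finite -/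
lemma finite_quot (G : Subgroup Lˣ) (hG : G.FG) (q : ℕ) (hq : 0 < q) :
    Finite (G ⧸ (powMonoidHom q : G →* G).range) := by
  have : Group.FG G := (Group.fg_iff_subgroup_fg G).2 hG
  apply CommGroup.finite_of_fg_isMulTorsion
  intro x
  rw [isOfFinOrder_iff_pow_eq_one]
  refine ⟨q, hq, ?_⟩
  induction x using QuotientGroup.induction_on with
  | H z =>
    rw [← QuotientGroup.mk_pow, QuotientGroup.eq_one_iff]
    exact ⟨z, rfl⟩

/-- representatives for the classes modulo `q`-th powers -/
lemma exists_rep (G : Subgroup Lˣ) (q : ℕ) (hq : 0 < q) (K : Subfield L) (hGK : ∀ u ∈ G, (u : L) ∈ K)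
    (x : L) (hx : In0 G x) :
    ∃ (z : G ⧸ (powMonoidHom q : G →* G).range) (y : L), y ∈ K ∧ x = (((Quotient.out z : G) : Lˣ) : L) * y ^ q ∧
      (x = 0 → y = 0) := by
  rcases hx with rfl | ⟨u, hu, rfl⟩
  · exact ⟨1, 0, zero_mem _, by rw [zero_pow hq.ne', mul_zero], fun _ => rfl⟩
  · obtain ⟨⟨n, t, ht⟩, hn⟩ := QuotientGroup.mk_out_eq_mul (powMonoidHom q : G →* G).range ⟨u, hu⟩
    refine ⟨QuotientGroup.mk ⟨u, hu⟩, (((t⁻¹ : G) : Lˣ) : L), hGK _ (t⁻¹).2, ?_, fun h => absurd h u.ne_zero⟩
    have h1 : (Quotient.out (QuotientGroup.mk ⟨u, hu⟩ : G ⧸ (powMonoidHom q : G →* G).range) : G)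
        = ⟨u, hu⟩ * n := hn
    have h2 : n = t ^ q := ht.symm
    have h3 : (⟨u, hu⟩ : G) = Quotient.out (QuotientGroup.mk ⟨u, hu⟩ : G ⧸ (powMonoidHom q : G →* G).range)
        * (t⁻¹) ^ q := by
      rw [h1, h2, mul_assoc, ← mul_pow, mul_inv_cancel, one_pow, mul_one]
    have h4 := congrArg (fun g : G => ((g : Lˣ) : L)) h3
    simpa using h4

/-- a linear functional over a subfield -/
lemma exists_func (F : Subfield L) (W : Submodule F L) (x : L) (hx : x ∉ W) :
    ∃ κ : L →ₗ[F] F, (∀ w ∈ W, κ w = 0) ∧ κ x ≠ 0 := by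
  obtain ⟨κ, h1, h2⟩ := Submodule.exists_le_ker_of_notMem hx
  exact ⟨κ, fun w hw => h2 hw, h1⟩

end Pool.Agent.K1H33.PA
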