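import Pool.Agent.K1H33.PA.Frob

set_option autoImplicit false

/-!
# Exponential sums with few terms, characteristic `p`
-/

namespace Pool.Agent.K1H33.PA

open Pool.Agent.K1H77.PA

/-- the family `c i χ i b` lies in the span of `r` elements over the field of `p ^ k`-th powers -/
lemma span_step (hN : S_N) {L : Type} [Field L] (p : ℕ) [Fact p.Prime] [CharP L p] (K : Subfield L)
    (A : Type) [CommMonoid A] (G : Subgroup Lˣ) (hG : G.FG) (hGK : ∀ u ∈ G, (u : L) ∈ K)
    (ι : Type) [Fintype ι] (χ : ι → (A →* Lˣ)) (c : ι → L) (r : ℕ)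
    (hNT : ∀ i j, i ≠ j → NT (χ i) (χ j)) (hχ : ∀ i a, χ i a ∈ G)
    (hw : ∀ a, ∃ w : Fin r → L, (∀ k, In0 G (w k)) ∧ ∑ i, c i * (χ i a : L) = ∑ k, w k)
    (k : ℕ) (b : A) :
    ∃ h : Fin r → L, ∀ i, c i * (χ i b : L) ∈ Submodule.span (Fk p K k) (Set.range h) := by
  have hq : 0 < p ^ k := pow_pos (Fact.out : p.Prime).pos k
  by_contra hcon
  push Not at hcon
  set C := Fin r → (G ⧸ (powMonoidHom (p ^ k) : G →* G).range) with hC
  have hfin : Finite (G ⧸ (powMonoidHom (p ^ k) : G →* G).range) := finite_quot G hG _ hq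
  have hCf : Finite C := inferInstance
  let rep : C → Fin r → L := fun z j => (((Quotient.out (z j) : G) : Lˣ) : L)
  have h1 : ∀ z : C, ∃ i, ∃ κ : L →ₗ[Fk p K k] Fk p K k, (∀ j, κ (rep z j) = 0) ∧
      κ (c i * (χ i b : L)) ≠ 0 := by
    intro z
    obtain ⟨i, hi⟩ := hcon (rep z)
    obtain ⟨κ, hκ1, hκ2⟩ := exists_func (Fk p K k) _ _ hi
    exact ⟨i, κ, fun j => hκ1 _ (Submodule.subset_span ⟨j, rfl⟩), hκ2⟩
  choose i0 κ hκ1 hκ2 using h1
  have h2 : ∀ z : C, ∀ i, ∃ y : L, y ^ p ^ k = ((κ z (c i * (χ i b : L)) : Fk p K k) : L) := by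
    intro z i
    obtain ⟨y, _, hy⟩ := mem_Fk.1 (κ z (c i * (χ i b : L))).2
    exact ⟨y, hy⟩
  choose d hd using h2
  obtain ⟨a, ha⟩ := hN L A C (fun _ => ι) (fun _ => χ) d (fun _ i j hij => hNT i j hij) (fun z =>
    ⟨i0 z, by
      intro h0
      have h3 := hd z (i0 z)
      rw [h0, zero_pow hq.ne'] at h3
      exact hκ2 z (Subtype.ext h3.symm)⟩)
  obtain ⟨w, hw1, hw2⟩ := hw (b * a ^ (p ^ k))
  have h4 := fun j => exists_rep G (p ^ k) hq K hGK (w j) (hw1 j)
  choose z y hy1 hy2 _ using h4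
  apply ha z
  have h5 : (∑ i, d z i * (χ i a : L)) ^ p ^ k = 0 := by
    rw [sum_pow_char_pow]
    have h6 : ∀ i, (d z i * (χ i a : L)) ^ p ^ k =
        ((κ z (((⟨(χ i a : L) ^ p ^ k, mem_Fk.2 ⟨_, hGK _ (hχ i a), rfl⟩⟩ : Fk p K k)) •
          (c i * (χ i b : L))) : Fk p K k) : L) := by
      intro i
      rw [map_smul, smul_eq_mul, Subfield.coe_mul, ← hd z i, mul_pow, mul_comm]
    rw [Finset.sum_congr rfl (fun i _ => h6 i)]
    have h7 : ∑ i, ((κ z (((⟨(χ i a : L) ^ p ^ k, mem_Fk.2 ⟨_, hGK _ (hχ i a), rfl⟩⟩ : Fk p K k)) •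
          (c i * (χ i b : L))) : Fk p K k) : L) =
        ((κ z (∑ i, (((⟨(χ i a : L) ^ p ^ k, mem_Fk.2 ⟨_, hGK _ (hχ i a), rfl⟩⟩ : Fk p K k)) •
          (c i * (χ i b : L)))) : Fk p K k) : L) := by
      rw [map_sum]
      push_cast
      rfl
    rw [h7]
    have h8 : ∑ i, (((⟨(χ i a : L) ^ p ^ k, mem_Fk.2 ⟨_, hGK _ (hχ i a), rfl⟩⟩ : Fk p K k)) •
          (c i * (χ i b : L))) = ∑ j, (⟨(y j) ^ p ^ k, mem_Fk.2 ⟨_, hy1 j, rfl⟩⟩ : Fk p K k) • rep z j := by
      have h9 : ∑ j, (⟨(y j) ^ p ^ k, mem_Fk.2 ⟨_, hy1 j, rfl⟩⟩ : Fk p K k) • rep z j = ∑ j, w j := by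
        apply Finset.sum_congr rfl
        intro j _
        rw [hy2 j]
        exact mul_comm _ _
      rw [h9, ← hw2]
      apply Finset.sum_congr rfl
      intro i _
      rw [map_mul, map_pow]
      show (χ i a : L) ^ p ^ k * (c i * (χ i b : L)) = _
      push_cast
      ring
    rw [h8, map_sum, Finset.sum_eq_zero (fun j _ => by rw [map_smul, hκ1, smul_zero])]
    rfl
  exact pow_eq_zero_iff hq.ne' |>.1 h5

theorem t_LEMAp (hN : S_N) (hC : S_CORE) : S_LEMAp := by
  classical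
  intro L _ p _ _ A _ G hG ι _ χ c r hχ hNT hc hw
  by_contra hcon
  push Not at hcon
  obtain ⟨T, hT⟩ := hG
  -- the field of definition
  set S : Finset L := (T.image (fun u : Lˣ => (u : L))) ∪ Finset.univ.image c with hS
  set K := Subfield.closure (S : Set L) with hK
  have hGK : ∀ u ∈ G, (u : L) ∈ K := by
    intro u hu
    rw [← hT] at hu
    induction hu using Subgroup.closure_induction with
    | mem x hx =>
      apply Subfield.subset_closure
      rw [hS]
      push_cast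
      exact Or.inl ⟨x, hx, rfl⟩
    | one => exact one_mem _
    | mul x y _ _ hx hy => exact mul_mem hx hy
    | inv x _ hx =>
      rw [Units.val_inv_eq_inv_val]
      exact inv_mem hx
  have hcK : ∀ i, c i ∈ K := by
    intro i
    apply Subfield.subset_closure
    rw [hS]
    push_cast
    exact Or.inr ⟨i, by simp, rfl⟩
  have hfin := hC L p S
  set k0 : Set L := {x : L | ∀ k : ℕ, ∃ y ∈ Subfield.closure (S : Set L), y ^ p ^ k = x} with hk0
  have hk0f : Finite k0 := hfin.to_subtype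
  -- dependence
  have h1 : ∀ b : A, ∃ e : ι → L, (∀ i, e i ∈ k0) ∧ ∑ i, e i * (c i * (χ i b : L)) = 0 ∧ ∃ i, e i ≠ 0 := by
    intro b
    obtain ⟨e, he1, he2, i, _, he3⟩ := dep_inf (Fk p K) (fun k l h => Fk_anti h)
      (fun i => c i * (χ i b : L)) Finset.univ (by
        intro k hind
        obtain ⟨h, hh⟩ := span_step hN p K A G ⟨T, hT⟩ hGK ι χ c r hNT hχ hw k b
        have hli : LinearIndependent (Fk p K k) (fun i => c i * (χ i b : L)) := by
          rw [Fintype.linearIndependent_iff]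
          intro g hg i
          have := hind (fun i => (g i : L)) (fun i _ => (g i).2) hg i (Finset.mem_univ _)
          exact Subtype.ext this
        have h2 : LinearIndependent (Fk p K k) (fun i => (⟨c i * (χ i b : L), hh i⟩ :
            Submodule.span (Fk p K k) (Set.range h))) := by
          apply LinearIndependent.of_comp (Submodule.subtype _)
          exact hli
        have hfd : Module.Finite (Fk p K k) (Submodule.span (Fk p K k) (Set.range h)) :=
          Module.Finite.span_of_finite _ (Set.finite_range h)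
        have h3 := h2.fintype_card_le_finrank
        have h4 := finrank_range_le_card (R := Fk p K k) h
        rw [Set.finrank, Fintype.card_fin] at h4
        omega)
    refine ⟨e, fun i k => ?_, he2, i, he3⟩
    exact mem_Fk.1 (he1 i (Finset.mem_univ _) k)
  -- finitely many relations
  set C := {e : ι → k0 // ∃ i, (e i : L) ≠ 0} with hCdef
  have hCf : Finite C := inferInstance
  obtain ⟨b, hb⟩ := hN L A C (fun _ => ι) (fun _ => χ) (fun e i => (e.1 i : L) * c i)
    (fun _ i j hij => hNT i j hij) (fun e => by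
      obtain ⟨i, hi⟩ := e.2
      exact ⟨i, mul_ne_zero hi (hc i)⟩)
  obtain ⟨e, he1, he2, i, hi⟩ := h1 b
  apply hb ⟨fun i => ⟨e i, he1 i⟩, i, hi⟩
  refine Eq.trans (Finset.sum_congr rfl ?_) he2
  intro i _
  exact mul_assoc _ _ _

end Pool.Agent.K1H33.PA
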