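import Pool.Agent.K1H33.PA.Frob

set_option autoImplicit false

/-!
# Functionals with values in a finitely generated group, characteristic `p`
-/

namespace Pool.Agent.K1H33.PA

open Pool.Agent.K1H77.PA Module

/-- the exceptional functional of a class -/
lemma class_step {L : Type} [Field L] (p : ℕ) [Fact p.Prime] [CharP L p] (K : Subfield L)
    (W : Type) [AddCommGroup W] [Module L W] (ι : Type) [Fintype ι] (b : ι → Dual L W)
    (hb : LinearIndependent L b) (ψ : Dual L W) (hψ : ψ ≠ 0) (c : ι → L) (hc : ∑ i, c i • b i = ψ)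
    (k : ℕ) (h : ι → L) (h0 : L) (hne : ∀ i, h i ≠ 0) (h0ne : h0 ≠ 0) :
    ∃ φ : Dual L W, φ ≠ 0 ∧ ∀ x : W, ψ x ≠ 0 → (∀ i, ∃ y ∈ K, b i x = h i * y ^ p ^ k) →
      (∃ y ∈ K, ψ x = h0 * y ^ p ^ k) → φ x ≠ 0 → ∀ i, ∃ f ∈ Fk p K k, c i * b i x = f * ψ x := by
  have hq : 0 < p ^ k := pow_pos (Fact.out : p.Prime).pos k
  by_cases hcase : ∀ i, c i * h i ∈ Submodule.span (Fk p K k) {h0}
  · refine ⟨ψ, hψ, ?_⟩
    intro x hx h1 h2 _ i
    obtain ⟨y, hy, hy'⟩ := h1 i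
    obtain ⟨y0, hy0, hy0'⟩ := h2
    obtain ⟨f, hf⟩ := Submodule.mem_span_singleton.1 (hcase i)
    have hy00 : y0 ≠ 0 := by
      rintro rfl
      rw [zero_pow hq.ne', mul_zero] at hy0'
      exact hx hy0'
    refine ⟨f * (y / y0) ^ p ^ k, mul_mem f.2 (mem_Fk.2 ⟨_, div_mem hy hy0, rfl⟩), ?_⟩
    have hf' : (f : L) * h0 = c i * h i := hf
    rw [hy', hy0', div_pow, ← mul_assoc, ← hf']
    field_simp
  · push Not at hcase
    obtain ⟨i0, hi0⟩ := hcase
    obtain ⟨κ, hκ1, hκ2⟩ := exists_func (Fk p K k) _ _ hi0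
    refine ⟨∑ i, (((κ (c i * h i) : Fk p K k) : L) / h i) • b i, ?_, ?_⟩
    · intro hz
      have := Fintype.linearIndependent_iff.1 hb _ hz i0
      rw [div_eq_zero_iff] at this
      rcases this with h1 | h1
      · exact hκ2 (Subtype.ext h1)
      · exact hne i0 h1
    · intro x hx h1 h2 h3
      exfalso
      apply h3
      choose y hy hy' using h1
      obtain ⟨y0, hy0, hy0'⟩ := h2
      rw [LinearMap.sum_apply]
      have h4 : ∀ i, ((((κ (c i * h i) : Fk p K k) : L) / h i) • b i) x =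
          ((κ ((⟨(y i) ^ p ^ k, mem_Fk.2 ⟨_, hy i, rfl⟩⟩ : Fk p K k) • (c i * h i)) : Fk p K k) : L) := by
        intro i
        rw [map_smul, smul_eq_mul, Subfield.coe_mul, LinearMap.smul_apply, smul_eq_mul, hy' i]
        have := hne i
        field_simp
      rw [Finset.sum_congr rfl (fun i _ => h4 i)]
      have h5 : ∑ i, ((κ ((⟨(y i) ^ p ^ k, mem_Fk.2 ⟨_, hy i, rfl⟩⟩ : Fk p K k) • (c i * h i)) :
          Fk p K k) : L) = ((κ (∑ i, (⟨(y i) ^ p ^ k, mem_Fk.2 ⟨_, hy i, rfl⟩⟩ : Fk p K k) •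
            (c i * h i)) : Fk p K k) : L) := by
        rw [map_sum]
        push_cast
        rfl
      rw [h5]
      have h6 : ∑ i, (⟨(y i) ^ p ^ k, mem_Fk.2 ⟨_, hy i, rfl⟩⟩ : Fk p K k) • (c i * h i) =
          (⟨y0 ^ p ^ k, mem_Fk.2 ⟨_, hy0, rfl⟩⟩ : Fk p K k) • h0 := by
        have h7 : (⟨y0 ^ p ^ k, mem_Fk.2 ⟨_, hy0, rfl⟩⟩ : Fk p K k) • h0 = ψ x := by
          rw [hy0']
          exact mul_comm _ _
        rw [h7, ← hc, LinearMap.sum_apply]
        apply Finset.sum_congr rfl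
        intro i _
        rw [LinearMap.smul_apply, hy' i, smul_eq_mul]
        show (y i) ^ p ^ k * (c i * h i) = _
        ring
      rw [h6, map_smul, hκ1 h0 (Submodule.mem_span_singleton_self h0), smul_zero]
      rfl

/-- outside finitely many proper subspaces the coordinates are in the field of `p ^ k`-th powers -/
lemma good_points {L : Type} [Field L] (p : ℕ) [Fact p.Prime] [CharP L p] (K : Subfield L)
    (H : Subgroup Lˣ) (hH : H.FG) (hHK : ∀ u ∈ H, (u : L) ∈ K)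
    (W : Type) [AddCommGroup W] [Module L W] (X : Set W) (ι : Type) [Fintype ι] (b : ι → Dual L W)
    (hb : LinearIndependent L b) (hbX : ∀ i, ∀ x ∈ X, In0 H (b i x))
    (ψ : Dual L W) (hψ : ψ ≠ 0) (hψX : ∀ x ∈ X, In0 H (ψ x)) (c : ι → L) (hc : ∑ i, c i • b i = ψ)
    (k : ℕ) :
    ∃ 𝒮 : Set (Submodule L W), 𝒮.Finite ∧ (∀ Z ∈ 𝒮, Z ≠ ⊤) ∧ ∀ x ∈ X, (∀ Z ∈ 𝒮, x ∉ Z) →
      ψ x ≠ 0 ∧ ∀ i, ∃ f ∈ Fk p K k, c i * b i x = f * ψ x := by
  have hq : 0 < p ^ k := pow_pos (Fact.out : p.Prime).pos k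
  have hfin : Finite (H ⧸ (powMonoidHom (p ^ k) : H →* H).range) := finite_quot H hH _ hq
  have h1 : ∀ z : (ι → (H ⧸ (powMonoidHom (p ^ k) : H →* H).range)) ×
      (H ⧸ (powMonoidHom (p ^ k) : H →* H).range), _ := fun z =>
    class_step p K W ι b hb ψ hψ c hc k (fun i => (((Quotient.out (z.1 i) : H) : Lˣ) : L))
      (((Quotient.out z.2 : H) : Lˣ) : L) (fun i => Units.ne_zero _) (Units.ne_zero _)
  choose φ hφ1 hφ2 using h1
  refine ⟨{LinearMap.ker ψ} ∪ Set.range (fun z => LinearMap.ker (φ z)),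
    (Set.finite_singleton _).union (Set.finite_range _), ?_, ?_⟩
  · rintro Z (hZ | ⟨z, rfl⟩)
    · rw [Set.mem_singleton_iff.1 hZ]
      intro h
      exact hψ (LinearMap.ker_eq_top.1 h)
    · intro h
      exact hφ1 z (LinearMap.ker_eq_top.1 h)
  · intro x hx hxZ
    have h2 : ψ x ≠ 0 := fun h => hxZ _ (Or.inl rfl) h
    refine ⟨h2, ?_⟩
    have h3 := fun i => exists_rep H (p ^ k) hq K hHK (b i x) (hbX i x hx)
    choose z y hy1 hy2 _ using h3
    obtain ⟨z0, y0, hy01, hy02, _⟩ := exists_rep H (p ^ k) hq K hHK (ψ x) (hψX x hx)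
    exact hφ2 (z, z0) x h2 (fun i => ⟨y i, hy1 i, hy2 i⟩) ⟨y0, hy01, hy02⟩
      (fun h => hxZ _ (Or.inr ⟨(z, z0), rfl⟩) h)

theorem t_LEMBp (hC : S_CORE) : S_LEMBp := by
  classical
  intro L _ p _ _ W _ _ _ H hH X Ψ hX hΨ
  obtain ⟨T, hT⟩ := hH
  -- the field of definition
  set S : Finset L := T.image (fun u : Lˣ => (u : L)) with hS
  set K := Subfield.closure (S : Set L) with hK
  have hHK : ∀ u ∈ H, (u : L) ∈ K := by
    intro u hu
    rw [← hT] at hu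
    induction hu using Subgroup.closure_induction with
    | mem x hx =>
      apply Subfield.subset_closure
      rw [hS]
      push_cast
      exact ⟨x, hx, rfl⟩
    | one => exact one_mem _
    | mul x y _ _ hx hy => exact mul_mem hx hy
    | inv x _ hx =>
      rw [Units.val_inv_eq_inv_val]
      exact inv_mem hx
  have hfin := hC L p S
  set k0 : Set L := {x : L | ∀ k : ℕ, ∃ y ∈ Subfield.closure (S : Set L), y ^ p ^ k = x} with hk0
  -- a basis of the span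
  obtain ⟨B, hBΨ, hBspan, hBli⟩ := exists_linearIndependent L Ψ
  have hBfin : Finite B := hBli.finite
  have hBft : Fintype B := Fintype.ofFinite B
  have hco : ∀ ψ ∈ Ψ, ∃ c : B → L, ∑ i, c i • (i : Dual L W) = ψ := by
    intro ψ hψ
    have h1 : ψ ∈ Submodule.span L (Set.range (fun i : B => (i : Dual L W))) := by
      rw [Subtype.range_coe, hBspan]
      exact Submodule.subset_span hψ
    obtain ⟨c, hc⟩ := (Submodule.mem_span_range_iff_exists_fun L).1 h1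
    exact ⟨c, hc⟩
  -- the ratios of the coefficients
  have key : ∀ (ψ ψ' : Dual L W), ψ ∈ Ψ → ψ' ∈ Ψ → ∀ (c c' : B → L), ∑ i, c i • (i : Dual L W) = ψ →
      ∑ i, c' i • (i : Dual L W) = ψ' → ∀ i l : B, c i ≠ 0 → c l ≠ 0 → c' i ≠ 0 → c' l ≠ 0 →
      (c i / c l) / (c' i / c' l) ∈ k0 := by
    intro ψ ψ' hψ hψ' c c' hc hc' i l hci hcl hci' hcl' k
    have hne : ∀ (c : B → L) (i : B), c i ≠ 0 → ∑ i, c i • (i : Dual L W) ≠ 0 := by
      intro c i hi h0
      exact hi (Fintype.linearIndependent_iff.1 hBli c h0 i)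
    have hψ0 : ψ ≠ 0 := by rw [← hc]; exact hne c i hci
    have hψ0' : ψ' ≠ 0 := by rw [← hc']; exact hne c' i hci'
    have hbX : ∀ i : B, ∀ x ∈ X, In0 H ((i : Dual L W) x) := fun i x hx => hΨ _ (hBΨ i.2) x hx
    have hi0 : ∀ i : B, (i : Dual L W) ≠ 0 := fun i => hBli.ne_zero i
    obtain ⟨𝒮, h𝒮1, h𝒮2, h𝒮3⟩ := good_points p K H ⟨T, hT⟩ hHK W X B (fun i => (i : Dual L W)) hBli hbX
      ψ hψ0 (hΨ ψ hψ) c hc k
    obtain ⟨𝒮', h𝒮1', h𝒮2', h𝒮3'⟩ := good_points p K H ⟨T, hT⟩ hHK W X B (fun i => (i : Dual L W)) hBli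
      hbX ψ' hψ0' (hΨ ψ' hψ') c' hc' k
    obtain ⟨x, hx, hxZ⟩ := hX ((𝒮 ∪ 𝒮') ∪ {LinearMap.ker (i : Dual L W), LinearMap.ker (l : Dual L W)})
      ((h𝒮1.union h𝒮1').union (Set.toFinite _)) (by
        rintro Z ((hZ | hZ) | (hZ | hZ))
        · exact h𝒮2 Z hZ
        · exact h𝒮2' Z hZ
        · rw [hZ]
          intro h
          exact hi0 i (LinearMap.ker_eq_top.1 h)
        · rw [Set.mem_singleton_iff.1 hZ]
          intro h
          exact hi0 l (LinearMap.ker_eq_top.1 h))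
    obtain ⟨h1, h2⟩ := h𝒮3 x hx (fun Z hZ => hxZ Z (Or.inl (Or.inl hZ)))
    obtain ⟨h1', h2'⟩ := h𝒮3' x hx (fun Z hZ => hxZ Z (Or.inl (Or.inr hZ)))
    have hix : (i : Dual L W) x ≠ 0 := fun h => hxZ _ (Or.inr (Or.inl rfl)) h
    have hlx : (l : Dual L W) x ≠ 0 := fun h => hxZ _ (Or.inr (Or.inr rfl)) h
    obtain ⟨fi, hfi, hfi'⟩ := h2 i
    obtain ⟨fl, hfl, hfl'⟩ := h2 l
    obtain ⟨gi, hgi, hgi'⟩ := h2' i
    obtain ⟨gl, hgl, hgl'⟩ := h2' l
    apply mem_Fk.1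
    have e1 : c i = fi * ψ x / (i : Dual L W) x := by rw [eq_div_iff hix]; exact hfi'
    have e2 : c l = fl * ψ x / (l : Dual L W) x := by rw [eq_div_iff hlx]; exact hfl'
    have e3 : c' i = gi * ψ' x / (i : Dual L W) x := by rw [eq_div_iff hix]; exact hgi'
    have e4 : c' l = gl * ψ' x / (l : Dual L W) x := by rw [eq_div_iff hlx]; exact hgl'
    have e5 : fl ≠ 0 := by
      rintro rfl
      apply hcl
      rw [e2, zero_mul, zero_div]
    have e6 : gi ≠ 0 := by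
      rintro rfl
      apply hci'
      rw [e3, zero_mul, zero_div]
    have e7 : gl ≠ 0 := by
      rintro rfl
      apply hcl'
      rw [e4, zero_mul, zero_div]
    have e8 : (c i / c l) / (c' i / c' l) = (fi / fl) / (gi / gl) := by
      rw [e1, e2, e3, e4]
      field_simp
    rw [e8]
    exact div_mem (div_mem hfi hfl) (div_mem hgi hgl)
  choose! co hcov using hco
  -- the finite set of ratios
  have hR : ∀ i l : B, {r : L | ∃ ψ ∈ Ψ, co ψ i ≠ 0 ∧ co ψ l ≠ 0 ∧ r = co ψ i / co ψ l}.Finite := by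
    intro i l
    by_cases hex : ∃ ψ' ∈ Ψ, co ψ' i ≠ 0 ∧ co ψ' l ≠ 0
    · obtain ⟨ψ', hψ', h1, h2⟩ := hex
      apply (hfin.image (fun t => t * (co ψ' i / co ψ' l))).subset
      rintro r ⟨ψ, hψ, h3, h4, rfl⟩
      refine ⟨_, key ψ ψ' hψ hψ' _ _ (hcov ψ hψ) (hcov ψ' hψ') i l h3 h4 h1 h2, ?_⟩
      simp only
      rw [div_mul_cancel₀]
      exact div_ne_zero h1 h2
    · convert Set.finite_empty
      rw [Set.eq_empty_iff_forall_notMem]
      rintro r ⟨ψ, hψ, h3, h4, _⟩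
      exact hex ⟨ψ, hψ, h3, h4⟩
  refine ⟨{0} ∪ ⋃ l : B, (fun e : B → L => ∑ i, e i • (i : Dual L W)) ''
    (Set.univ.pi (fun i => {0} ∪ {r : L | ∃ ψ ∈ Ψ, co ψ i ≠ 0 ∧ co ψ l ≠ 0 ∧ r = co ψ i / co ψ l})), ?_, ?_⟩
  · apply (Set.finite_singleton _).union
    apply Set.finite_iUnion
    intro l
    apply Set.Finite.image
    apply Set.Finite.pi
    intro i
    exact (Set.finite_singleton _).union (hR i l)
  · intro ψ hψ
    by_cases hz : ∃ l : B, co ψ l ≠ 0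
    · obtain ⟨l, hl⟩ := hz
      refine ⟨∑ i, (co ψ i / co ψ l) • (i : Dual L W), Or.inr (Set.mem_iUnion.2 ⟨l, _, ?_, rfl⟩), co ψ l, ?_⟩
      · intro i _
        by_cases hi : co ψ i = 0
        · left
          show co ψ i / co ψ l = 0
          rw [hi, zero_div]
        · right
          exact ⟨ψ, hψ, hi, hl, rfl⟩
      · conv_lhs => rw [← hcov ψ hψ]
        rw [Finset.smul_sum]
        apply Finset.sum_congr rfl
        intro i _
        rw [smul_smul, mul_div_cancel₀ _ hl]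
    · push Not at hz
      refine ⟨0, Or.inl rfl, 0, ?_⟩
      rw [← hcov ψ hψ, Finset.sum_eq_zero (fun i _ => by rw [hz i, zero_smul]), smul_zero]

end Pool.Agent.K1H33.PA
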