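import Pool.Agent.K1H77.PA.Stm

set_option autoImplicit false

/-!
# From finiteness of the ratios in nondegenerate unit equations to the germ form
-/

namespace Pool.Agent.K1H33.PA

open Pool.Agent.K1H77.PA

/-- finitely many ratios in the nondegenerate unit equation -/
def Rat (L : Type) [Field L] : Prop :=
  ∀ (G : Subgroup Lˣ), G.FG → ∀ r : ℕ, ∃ R : Set L, R.Finite ∧ ∀ u : Fin (r + 1) → Lˣ,
    (∀ i, u i ∈ G) → ∑ i, (u i : L) = 0 →
      (∀ J : Finset (Fin (r + 1)), J.Nonempty → ∑ i ∈ J, (u i : L) = 0 → J = Finset.univ) →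
      ∀ i j, (u i : L) / (u j : L) ∈ R

/-- the same for an arbitrary index set -/
lemma Rat.fintype {L : Type} [Field L] (H : Rat L) (G : Subgroup Lˣ) (hG : G.FG) (κ : Type) [Fintype κ]
    [Nonempty κ] : ∃ R : Set L, R.Finite ∧ ∀ u : κ → Lˣ, (∀ i, u i ∈ G) → ∑ i, (u i : L) = 0 →
      (∀ J : Finset κ, J.Nonempty → ∑ i ∈ J, (u i : L) = 0 → J = Finset.univ) →
      ∀ i j, (u i : L) / (u j : L) ∈ R := by
  obtain ⟨r, hr⟩ : ∃ r, Fintype.card κ = r + 1 := ⟨Fintype.card κ - 1, by
    have := Fintype.card_pos (α := κ)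
    omega⟩
  let e : Fin (r + 1) ≃ κ := (Fintype.equivFinOfCardEq hr).symm
  obtain ⟨R, hR, hR'⟩ := H G hG r
  refine ⟨R, hR, ?_⟩
  intro u hu hsum hnd i j
  have h1 := hR' (fun k => u (e k)) (fun k => hu _) (by rw [Equiv.sum_comp e (fun k => (u k : L))]; exact hsum)
    (by
      intro J hJ h
      have h2 := hnd (J.map e.toEmbedding) (hJ.map) (by rw [Finset.sum_map]; exact h)
      rw [Finset.eq_univ_iff_forall] at h2 ⊢
      intro k
      have h3 := h2 (e k)
      rw [Finset.mem_map_equiv, Equiv.symm_apply_apply] at h3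
      exact h3) (e.symm i) (e.symm j)
  simpa using h1

theorem Rat.uli {L : Type} [Field L] (H : Rat L) : ULI L := by
  classical
  intro G hG 𝒰 m g hg hprop c hc
  by_contra hne
  -- the terms
  set I : Finset (Fin m) := Finset.univ.filter (fun i => c i ≠ 0) with hI
  have hIne : I.Nonempty := by
    by_contra h
    rw [Finset.not_nonempty_iff_eq_empty] at h
    apply hne
    funext i
    by_contra h1
    have : i ∈ I := by rw [hI]; simp; exact h1
    rw [h] at this
    simp at this
  let cu : Fin m → Lˣ := fun i => if h : c i ≠ 0 then Units.mk0 (c i) h else 1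
  have hcu : ∀ i ∈ I, (cu i : L) = c i := by
    intro i hi
    have h1 : c i ≠ 0 := (Finset.mem_filter.1 hi).2
    simp only [cu]
    rw [dif_pos h1]
    rfl
  set G' : Subgroup Lˣ := G ⊔ Subgroup.closure (Set.range cu) with hG'
  have hG'fg : G'.FG := by
    apply Subgroup.FG.sup hG
    exact ⟨(Set.finite_range cu).toFinset, by simp⟩
  -- minimal vanishing subsets
  let P : Finset (Fin m) → ℕ → Prop := fun J n => J ⊆ I ∧ J.Nonempty ∧ ∑ i ∈ J, c i * (g i n : L) = 0 ∧
    ∀ J' ⊆ J, J'.Nonempty → ∑ i ∈ J', c i * (g i n : L) = 0 → J' = J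
  have h1 : ∀ᶠ n in (𝒰 : Filter ℕ), ∃ J, P J n := by
    filter_upwards [hc] with n hn
    have h2 : ∑ i ∈ I, c i * (g i n : L) = 0 := by
      rw [← hn]
      apply Finset.sum_subset (Finset.subset_univ _)
      intro i _ hi
      have : c i = 0 := by
        by_contra h3
        exact hi (by rw [hI]; simp; exact h3)
      rw [this, zero_mul]
    have h3 : ((I.powerset).filter (fun J => J.Nonempty ∧ ∑ i ∈ J, c i * (g i n : L) = 0)).Nonempty :=
      ⟨I, by simp [hIne, h2]⟩
    obtain ⟨J, hJ, hJmin⟩ := Finset.exists_min_image _ Finset.card h3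
    rw [Finset.mem_filter, Finset.mem_powerset] at hJ
    refine ⟨J, hJ.1, hJ.2.1, hJ.2.2, ?_⟩
    intro J' hJ' hne' hs'
    apply Finset.eq_of_subset_of_card_le hJ'
    apply hJmin
    rw [Finset.mem_filter, Finset.mem_powerset]
    exact ⟨hJ'.trans hJ.1, hne', hs'⟩
  rw [Ultrafilter.eventually_exists_iff] at h1
  obtain ⟨J, hJ⟩ := h1
  obtain ⟨n0, hn0⟩ := hJ.exists
  obtain ⟨hJI, hJne, _, _⟩ := hn0
  have hne' : Nonempty J := hJne.to_subtype
  obtain ⟨R, hR, hR'⟩ := H.fintype G' hG'fg J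
  -- two elements
  have hcard : 1 < J.card := by
    by_contra hle
    have h4 : J.card = 1 := by
      have := hJne.card_pos
      omega
    obtain ⟨a, ha⟩ := Finset.card_eq_one.1 h4
    obtain ⟨n, hn⟩ := hJ.exists
    have h5 := hn.2.2.1
    rw [ha, Finset.sum_singleton] at h5
    rcases mul_eq_zero.1 h5 with h6 | h6
    · exact (Finset.mem_filter.1 (hJI (by rw [ha]; simp : a ∈ J))).2 h6
    · exact (g a n).ne_zero h6
  obtain ⟨i, hi, j, hj, hij⟩ := Finset.one_lt_card.1 hcard
  have hci : c i ≠ 0 := (Finset.mem_filter.1 (hJI hi)).2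
  have hcj : c j ≠ 0 := (Finset.mem_filter.1 (hJI hj)).2
  have h7 : ∀ᶠ n in (𝒰 : Filter ℕ), ∃ ρ : R, (c i * (g i n : L)) / (c j * (g j n : L)) = ρ := by
    filter_upwards [hJ] with n hn
    obtain ⟨_, _, hn1, hn2⟩ := hn
    have h8 : ∀ k : J, ((cu k * g k n : Lˣ) : L) = c k * (g k n : L) := by
      intro k
      rw [Units.val_mul, hcu k (hJI k.2)]
    have h9 := hR' (fun k : J => cu k * g k n)
      (fun k => mul_mem (Subgroup.mem_sup_right (Subgroup.subset_closure ⟨_, rfl⟩))
        (Subgroup.mem_sup_left (hg _ _)))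
      (by
        rw [Finset.sum_congr rfl (fun k _ => h8 k), Finset.sum_coe_sort J (fun k => c k * (g k n : L))]
        exact hn1)
      (by
        intro J' hJ' hs
        rw [Finset.sum_congr rfl (fun k _ => h8 k)] at hs
        have h10 := hn2 (J'.map (Function.Embedding.subtype _)) (by
          intro x hx
          rw [Finset.mem_map] at hx
          obtain ⟨y, _, rfl⟩ := hx
          exact y.2) hJ'.map (by rw [Finset.sum_map]; exact hs)
        rw [Finset.eq_univ_iff_forall]
        intro k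
        have h11 : (k : Fin m) ∈ J'.map (Function.Embedding.subtype _) := by rw [h10]; exact k.2
        rw [Finset.mem_map] at h11
        obtain ⟨y, hy, hyk⟩ := h11
        have : y = k := Subtype.ext hyk
        rw [← this]
        exact hy) ⟨i, hi⟩ ⟨j, hj⟩
    exact ⟨⟨_, h9⟩, by rw [← h8 ⟨i, hi⟩, ← h8 ⟨j, hj⟩]⟩
  have hRf : Finite R := hR.to_subtype
  rw [Ultrafilter.eventually_exists_iff] at h7
  obtain ⟨ρ, hρ⟩ := h7
  apply hprop i j hij (ρ * c j / c i)
  filter_upwards [hρ] with n hn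
  have h12 := (g j n).ne_zero
  rw [div_eq_iff (mul_ne_zero hcj h12)] at hn
  rw [div_mul_eq_mul_div, eq_div_iff hci]
  linear_combination hn

end Pool.Agent.K1H33.PA
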