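import Pool.Agent.K1H33.PA.UliGen
import Pool.Agent.X4.SU.UE

set_option autoImplicit false

/-!
# The unit equation for algebraic numbers, germ form
-/

namespace Pool.Agent.K1H33.PA

open Pool.Agent.K1H77.PA Height Module
open Pool.Agent.Helper259.AbsHt Pool.Agent.Y215.SK

theorem rat_Q : Rat (AlgebraicClosure ℚ) := by
  classical
  intro G hG r
  obtain ⟨C, hC⟩ := Pool.Agent.X4.SU.bounded G hG r
  obtain ⟨T, hT⟩ := hG
  set F : IntermediateField ℚ (AlgebraicClosure ℚ) :=
    IntermediateField.adjoin ℚ ((fun u : (AlgebraicClosure ℚ)ˣ => (u : AlgebraicClosure ℚ)) '' (T : Set _)) with hF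
  have hfd : FiniteDimensional ℚ F := by
    have hfin : Finite ((fun u : (AlgebraicClosure ℚ)ˣ => (u : AlgebraicClosure ℚ)) '' (T : Set _)) :=
      (T.finite_toSet.image _).to_subtype
    exact IntermediateField.finiteDimensional_adjoin (fun x _ => ((AlgebraicClosure.isAlgebraic ℚ).isAlgebraic x).isIntegral)
  have hnf : NumberField F := ⟨⟩
  have hGF : ∀ u ∈ G, (u : AlgebraicClosure ℚ) ∈ F := by
    intro u hu
    rw [← hT] at hu
    induction hu using Subgroup.closure_induction with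
    | mem x hx => exact IntermediateField.subset_adjoin _ _ ⟨x, hx, rfl⟩
    | one => exact one_mem _
    | mul x y _ _ hx hy => exact mul_mem hx hy
    | inv x _ hx =>
      rw [Units.val_inv_eq_inv_val]
      exact inv_mem hx
  have hpos : (0 : ℝ) < finrank ℚ F := by exact_mod_cast Module.finrank_pos
  refine ⟨(fun x : F => (x : AlgebraicClosure ℚ)) '' {x : F | logHeight₁ x ≤ C * finrank ℚ F},
    (Northcott.finite_le (h := fun x : F => logHeight₁ x) (C * finrank ℚ F)).image _, ?_⟩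
  intro u hu hsum hnd i j
  have h1 := hC u hu hsum hnd i j
  refine ⟨⟨(u i : AlgebraicClosure ℚ) / u j, div_mem (hGF _ (hu i)) (hGF _ (hu j))⟩, ?_, rfl⟩
  have h2 := h1_eq F (algebraMap F (AlgebraicClosure ℚ))
    ⟨(u i : AlgebraicClosure ℚ) / u j, div_mem (hGF _ (hu i)) (hGF _ (hu j))⟩
  have h3 : Pool.Agent.Y215.SK.h1 ((algebraMap F (AlgebraicClosure ℚ))
    ⟨(u i : AlgebraicClosure ℚ) / u j, div_mem (hGF _ (hu i)) (hGF _ (hu j))⟩) ≤ C := h1
  rw [h2, div_le_iff₀ hpos] at h3
  exact h3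

theorem t_ULI_Q : S_ULI_Q := rat_Q.uli

end Pool.Agent.K1H33.PA
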